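import Pool.Agent.H54.G.W803.RK.L7

set_option autoImplicit false

/-! L8: Krasner's lemma, the hypothesis of Fontaine's bound for radical extensions (helper803). -/

namespace Pool.Agent.W803.RK
open Pool.Agent.W237.RK Polynomial

namespace L8
open L7

variable {p : ℕ} [Fact p.Prime]

/-- the ring of integral elements -/
def OI (p : ℕ) [Fact p.Prime] : Subring (Om p) where
  carrier := {x | ‖x‖ ≤ 1}
  mul_mem' := by
    intro a b ha hb
    show ‖a * b‖ ≤ 1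
    rw [norm_mul]
    exact mul_le_one₀ ha (norm_nonneg _) hb
  one_mem' := by show ‖(1 : Om p)‖ ≤ 1; simp
  add_mem' := by
    intro a b ha hb
    exact (IsUltrametricDist.norm_add_le_max a b).trans (max_le ha hb)
  zero_mem' := by show ‖(0 : Om p)‖ ≤ 1; simp
  neg_mem' := by
    intro a ha
    show ‖-a‖ ≤ 1
    rw [norm_neg]
    exact ha

/-- integral polynomials -/
def IP (Q : (Om p)[X]) : Prop := ∀ j, ‖Q.coeff j‖ ≤ 1

theorem ip_lifts {Q : (Om p)[X]} : IP Q ↔ Q ∈ lifts (OI p).subtype := by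
  rw [lifts_iff_coeff_lifts]
  constructor
  · intro h n
    exact ⟨⟨Q.coeff n, h n⟩, rfl⟩
  · intro h n
    obtain ⟨y, hy⟩ := h n
    rw [← hy]
    exact y.2

theorem ip_comp {h P : (Om p)[X]} (hh : IP h) (hP : IP P) : IP (h.comp P) := by
  rw [ip_lifts, mem_lifts] at *
  obtain ⟨h0, rfl⟩ := hh
  obtain ⟨P0, rfl⟩ := hP
  exact ⟨h0.comp P0, Polynomial.map_comp _ _ _⟩

theorem ip_eval {Q : (Om p)[X]} (hQ : IP Q) {β : Om p} (hβ : ‖β‖ ≤ 1) : ‖Q.eval β‖ ≤ 1 := by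
  rw [eval_eq_sum_range]
  refine IsUltrametricDist.norm_sum_le_of_forall_le_of_nonneg (by norm_num) ?_
  intro j _
  rw [norm_mul, norm_pow]
  exact mul_le_one₀ (hQ j) (by positivity) (pow_le_one₀ (norm_nonneg _) hβ)

theorem ip_div {f Q : (Om p)[X]} (hf : IP f) (hm : f.Monic) (hQ : IP Q) (hd : f ∣ Q) :
    ∃ q, IP q ∧ Q = f * q := by
  rw [ip_lifts] at hf hQ
  obtain ⟨f0, hf0, -, hf0m⟩ := lifts_and_degree_eq_and_monic hf hm
  obtain ⟨Q0, hQ0⟩ := (mem_lifts _).1 hQ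
  refine ⟨(Q0 /ₘ f0).map (OI p).subtype, ?_, ?_⟩
  · rw [ip_lifts, mem_lifts]
    exact ⟨_, rfl⟩
  · have h1 := congrArg (Polynomial.map (OI p).subtype) (modByMonic_add_div Q0 f0)
    rw [Polynomial.map_add, Polynomial.map_mul, map_modByMonic _ hf0m, hQ0, hf0,
      (modByMonic_eq_zero_iff_dvd hm).2 hd, zero_add] at h1
    exact h1.symm

theorem oP_ip {F : LF p} {x : Om p} (hx : ‖x‖ ≤ 1) : IP (oP F x) := by
  intro j
  refine (coeff_le (a := 1) le_rfl zero_le_one _ ?_ j).1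
  intro y hy
  rw [Set.Finite.mem_toFinset] at hy
  obtain ⟨σ, -, rfl⟩ := hy
  rw [norm_aut]
  exact hx

theorem oP_dvd {F : LF p} {x : Om p} {Q : (Om p)[X]} (h : ∀ y ∈ lorb F x, Q.eval y = 0) :
    oP F x ∣ Q := by
  unfold oP
  refine Finset.prod_dvd_of_coprime ?_ ?_
  · intro y _ z _ hyz
    exact pairwise_coprime_X_sub_C (K := Om p) (s := id) Function.injective_id hyz
  · intro y hy
    rw [Set.Finite.mem_toFinset] at hy
    exact dvd_iff_isRoot.2 (h y hy)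

/-- roots of unity are far from `1` -/
theorem unit_far {η : Om p} {R : ℕ} (hR : 0 < R) (h : η ^ R = 1) (h1 : η ≠ 1) :
    (p : ℝ)⁻¹ ≤ ‖1 - η‖ := by
  have hn : ‖η‖ = 1 := by
    have := congrArg norm h
    rw [norm_pow, norm_one] at this
    exact (pow_eq_one_iff_of_nonneg (norm_nonneg _) hR.ne').1 this
  have hpow : ∀ (u : Om p), ‖u‖ = 1 → ∀ c : ℕ, ‖u ^ c - 1‖ ≤ ‖u - 1‖ := by
    intro u hu c
    have e : u ^ c - 1 = (∑ i ∈ Finset.range c, u ^ i) * (u - 1) := (geom_sum_mul u c).symm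
    rw [e, norm_mul]
    have : ‖∑ i ∈ Finset.range c, u ^ i‖ ≤ 1 := by
      refine IsUltrametricDist.norm_sum_le_of_forall_le_of_nonneg (by norm_num) ?_
      intro i _
      rw [norm_pow, hu, one_pow]
    nlinarith [norm_nonneg (u - 1)]
  have ho : orderOf η ≠ 1 := by
    rw [Ne, orderOf_eq_one_iff]
    exact h1
  have ho0 : 0 < orderOf η := orderOf_pos_iff.2 (isOfFinOrder_iff_pow_eq_one.2 ⟨R, hR, h⟩)
  obtain ⟨q, hq, hdvd⟩ := Nat.exists_prime_and_dvd ho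
  obtain ⟨m, hm⟩ := hdvd
  have hm0 : m ≠ 0 := by
    rintro rfl
    omega
  set u := η ^ m with hu
  have huq : u ^ q = 1 := by
    rw [hu, ← pow_mul, mul_comm, ← hm, pow_orderOf_eq_one]
  have hu1 : u ≠ 1 := by
    intro h2
    have h3 := orderOf_dvd_of_pow_eq_one h2
    rw [hm] at h3
    have h4 := Nat.le_of_dvd (Nat.pos_of_ne_zero hm0) h3
    have h5 := hq.two_le
    nlinarith [Nat.pos_of_ne_zero hm0]
  have hun : ‖u‖ = 1 := by rw [hu, norm_pow, hn, one_pow]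
  have hsum : ∑ i ∈ Finset.range q, u ^ i = 0 := by
    have h2 := geom_sum_mul u q
    rw [huq, sub_self] at h2
    exact (mul_eq_zero.1 h2).resolve_right (sub_ne_zero.2 hu1)
  have hqn : ‖(q : Om p)‖ ≤ ‖u - 1‖ := by
    have e : (q : Om p) = -∑ i ∈ Finset.range q, (u ^ i - 1) := by
      rw [Finset.sum_sub_distrib, hsum]
      simp
    rw [e, norm_neg]
    refine IsUltrametricDist.norm_sum_le_of_forall_le_of_nonneg (norm_nonneg _) ?_
    intro i _
    exact hpow u hun i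
  have hq0 : (p : ℝ)⁻¹ ≤ ‖(q : Om p)‖ := by
    have h2 : ((q : ℚ_[p]) : Om p) = (q : Om p) := map_natCast (algebraMap ℚ_[p] (PadicAlgCl p)) q
    have h3 := PadicAlgCl.norm_extends (p := p) (q : ℚ_[p])
    rw [h2] at h3
    rw [h3]
    by_cases hqp : q = p
    · rw [hqp]
      exact (Padic.norm_p (p := p)).ge
    · have h4 : ‖(q : ℚ_[p])‖ = 1 := by
        rw [Padic.norm_natCast_eq_one_iff]
        exact (Nat.coprime_primes (Fact.out : p.Prime) hq).2 (Ne.symm hqp)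
      rw [h4]
      exact inv_le_one_of_one_le₀ (by exact_mod_cast (Fact.out : p.Prime).one_lt.le)
  rw [norm_sub_rev]
  exact hq0.trans (hqn.trans (hpow η hn m))

/-- evaluation of a polynomial with coefficients in a field -/
theorem eval_mem {F : LF p} {P : (Om p)[X]} (hP : ∀ j, P.coeff j ∈ F) {β : Om p} (hβ : β ∈ F) :
    P.eval β ∈ F := by
  rw [eval_eq_sum_range]
  exact sum_mem fun j _ => mul_mem (hP j) (pow_mem hβ j)

theorem eval_aut {F : LF p} {P : (Om p)[X]} (hP : ∀ j, P.coeff j ∈ F) {σ : LAut p}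
    (hσ : LFix F σ) (x : Om p) : P.eval (σ x) = σ (P.eval x) := by
  rw [eval_eq_sum_range, eval_eq_sum_range, map_sum]
  refine Finset.sum_congr rfl fun j _ => ?_
  rw [map_mul, map_pow, hσ _ (hP j)]

open Classical in
/-- derivative of the orbit polynomial -/
theorem deriv_oP {F : LF p} {x z : Om p} (hz : z ∈ lorb F x) :
    (derivative (oP F x)).eval z = ∏ y ∈ (lorb_finite F x).toFinset.erase z, (z - y) := by
  classical
  have hz' : z ∈ (lorb_finite F x).toFinset := by rwa [Set.Finite.mem_toFinset]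
  unfold oP
  rw [← Finset.mul_prod_erase _ _ hz', derivative_mul]
  simp [eval_prod]

/-- **Krasner**: a conjugate of the radical `x` is in `k(β)` -/
theorem krasner {k L : LF p} (hST : S_STRUCT) (hk : kur p ≤ k) (hkL : k ≤ L)
    (hfin : FinOver (kur p) L) {π β : Om p} (hπ : Unif L π) (hβ1 : ‖β‖ ≤ 1) {R m i V : ℕ}
    (hR : 0 < R) (hmi : m ≤ i) (hRn : ((p : ℝ) ^ m)⁻¹ ≤ ‖(R : Om p)‖) {a x : Om p}
    (ha : a ∈ k) (ha0 : a ≠ 0) (ha1 : ‖a‖ ≤ 1) (haV : ((p : ℝ) ^ V)⁻¹ ≤ ‖a‖) (hxL : x ∈ L)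
    (hx : x ^ R = a)
    (hβ : ∏ y ∈ (lorb_finite k π).toFinset, ‖β - y‖ ≤ ((p : ℝ) ^ (i + 2 + V))⁻¹) :
    ∃ z ∈ lorb k x, z ∈ k ⊔ IntermediateField.adjoin ℚ_[p] {β} := by
  classical
  have hp0 : (0 : ℝ) < p := by exact_mod_cast (Fact.out : p.Prime).pos
  have hp1 : (1 : ℝ) < p := by exact_mod_cast (Fact.out : p.Prime).one_lt
  have hx1 : ‖x‖ ≤ 1 := by
    have h1 := congrArg norm hx
    rw [norm_pow] at h1
    by_contra hcon
    rw [not_le] at hcon
    have h2 : 1 < ‖x‖ ^ R := one_lt_pow₀ hcon hR.ne'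
    linarith
  obtain ⟨P, hPc, hPx⟩ := (hST p L hfin).2.1 π hπ x hxL hx1
  set F := k ⊔ IntermediateField.adjoin ℚ_[p] {β} with hF
  have hβF : β ∈ F := (le_sup_right : IntermediateField.adjoin ℚ_[p] {β} ≤ F)
    (IntermediateField.mem_adjoin_simple_self ℚ_[p] β)
  have hkF : k ≤ F := le_sup_left
  set x' := P.eval β with hx'
  have hx'F : x' ∈ F := eval_mem (fun j => hkF (hk (hPc j).1)) hβF
  set h := oP k x with hh
  set f := oP k π with hf
  have hroots : ∀ z ∈ lorb k x, z ^ R = a := by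
    rintro z ⟨σ, hσ, rfl⟩
    rw [← map_pow, hx, hσ a ha]
  -- the value of `h` at `x'`
  have hval : ‖h.eval x'‖ ≤ ((p : ℝ) ^ (i + 2 + V))⁻¹ := by
    obtain ⟨q, hq, hQ⟩ := ip_div (f := f) (Q := h.comp P) (oP_ip hπ.2.2.1.le) (oP_monic k π)
      (ip_comp (oP_ip hx1) fun j => (hPc j).2) (oP_dvd (by
        rintro y ⟨σ, hσ, rfl⟩
        rw [eval_comp, eval_aut (F := kur p) (fun j => (hPc j).1) (fun z hz => hσ z (hk hz)), hPx,
          oP_eval]
        refine Finset.prod_eq_zero (i := σ x) ?_ (sub_self _)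
        rw [Set.Finite.mem_toFinset]
        exact ⟨σ, hσ, rfl⟩))
    have e : h.eval x' = f.eval β * q.eval β := by
      rw [← eval_mul, ← hQ, eval_comp]
    rw [e, norm_mul, norm_eval]
    calc (∏ y ∈ (lorb_finite k π).toFinset, ‖β - y‖) * ‖q.eval β‖ ≤
        (∏ y ∈ (lorb_finite k π).toFinset, ‖β - y‖) * 1 :=
          mul_le_mul_of_nonneg_left (ip_eval hq hβ1) (Finset.prod_nonneg fun _ _ => norm_nonneg _)
      _ ≤ _ := by rw [mul_one]; exact hβ
  -- the closest root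
  set s := (lorb_finite k x).toFinset with hs
  have hmem : ∀ y, y ∈ s ↔ y ∈ lorb k x := fun y => Set.Finite.mem_toFinset _
  obtain ⟨z, hz, hmin⟩ := Finset.exists_min_image s (fun y => ‖x' - y‖)
    ⟨x, (hmem x).2 (self_mem k x)⟩
  have hzR := hroots z ((hmem z).1 hz)
  have hz0 : z ≠ 0 := by
    rintro rfl
    rw [zero_pow hR.ne'] at hzR
    exact ha0 hzR.symm
  have hzn : 0 < ‖z‖ := norm_pos_iff.2 hz0
  have hprod : ‖(R : Om p)‖ * ‖z‖ ^ (R - 1) ≤ ∏ y ∈ s.erase z, ‖z - y‖ := by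
    obtain ⟨q, hq, hQ⟩ := ip_div (f := h) (Q := X ^ R - C a) (oP_ip hx1) (oP_monic k x) (by
        intro j
        rw [coeff_sub, coeff_X_pow, coeff_C]
        refine (norm_sub_le' _ _).trans (max_le ?_ ?_)
        · split_ifs <;> simp
        · split_ifs
          · exact ha1
          · simp) (oP_dvd (by
        intro y hy
        simp [hroots y hy]))
    have h1 := congrArg (fun T => (derivative T).eval z) hQ
    simp only [derivative_sub, derivative_X_pow, derivative_C, sub_zero, derivative_mul, eval_add,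
      eval_mul, eval_pow, eval_X, eval_C, eval_natCast, map_natCast] at h1
    have h2 : h.eval z = 0 := by
      rw [hh, oP_eval]
      exact Finset.prod_eq_zero hz (sub_self _)
    rw [h2, zero_mul, add_zero, hh, deriv_oP ((hmem z).1 hz)] at h1
    have h3 := congrArg norm h1
    rw [norm_mul, norm_pow, norm_mul, norm_prod] at h3
    rw [h3]
    have hz1 : ‖z‖ ≤ 1 := by
      obtain ⟨σ, -, rfl⟩ := (hmem z).1 hz
      rw [norm_aut]; exact hx1
    calc (∏ y ∈ s.erase z, ‖z - y‖) * ‖q.eval z‖ ≤ (∏ y ∈ s.erase z, ‖z - y‖) * 1 :=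
          mul_le_mul_of_nonneg_left (ip_eval hq hz1) (Finset.prod_nonneg fun _ _ => norm_nonneg _)
      _ = _ := mul_one _
  have hlow : ‖x' - z‖ * (‖(R : Om p)‖ * ‖z‖ ^ (R - 1)) ≤ ((p : ℝ) ^ (i + 2 + V))⁻¹ := by
    refine le_trans ?_ hval
    rw [hh, norm_eval, ← Finset.mul_prod_erase _ _ hz]
    refine mul_le_mul_of_nonneg_left (hprod.trans ?_) (norm_nonneg _)
    refine Finset.prod_le_prod (fun _ _ => norm_nonneg _) fun y hy => ?_
    have h1 := hmin y (Finset.mem_of_mem_erase hy)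
    have e : z - y = (x' - y) - (x' - z) := by ring
    rw [e]
    exact (norm_sub_le' _ _).trans (max_le le_rfl h1)
  have hclose : ‖x' - z‖ < ‖z‖ * (p : ℝ)⁻¹ := by
    have e1 : ‖z‖ ^ (R - 1) * ‖z‖ = ‖a‖ := by
      rw [← pow_succ, Nat.sub_add_cancel hR, ← norm_pow, hzR]
    have h1 : ‖x' - z‖ * (‖(R : Om p)‖ * ‖a‖) ≤ ((p : ℝ) ^ (i + 2 + V))⁻¹ * ‖z‖ := by
      calc ‖x' - z‖ * (‖(R : Om p)‖ * ‖a‖) = ‖x' - z‖ * (‖(R : Om p)‖ * ‖z‖ ^ (R - 1)) * ‖z‖ := by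
            rw [← e1]; ring
        _ ≤ _ := mul_le_mul_of_nonneg_right hlow hzn.le
    have h2 : ((p : ℝ) ^ m)⁻¹ * ((p : ℝ) ^ V)⁻¹ ≤ ‖(R : Om p)‖ * ‖a‖ :=
      mul_le_mul hRn haV (by positivity) (norm_nonneg _)
    have h3 : ‖x' - z‖ * (((p : ℝ) ^ m)⁻¹ * ((p : ℝ) ^ V)⁻¹) ≤
        ((p : ℝ) ^ (i + 2 + V))⁻¹ * ‖z‖ :=
      (mul_le_mul_of_nonneg_left h2 (norm_nonneg _)).trans h1
    have h4 : ‖x' - z‖ ≤ ((p : ℝ) ^ (i + 2 + V))⁻¹ * ‖z‖ * ((p : ℝ) ^ m * (p : ℝ) ^ V) := by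
      have h5 : ‖x' - z‖ = ‖x' - z‖ * (((p : ℝ) ^ m)⁻¹ * ((p : ℝ) ^ V)⁻¹) *
          ((p : ℝ) ^ m * (p : ℝ) ^ V) := by
        field_simp
      rw [h5]
      exact mul_le_mul_of_nonneg_right h3 (by positivity)
    have h6 : ((p : ℝ) ^ (i + 2 + V))⁻¹ * ‖z‖ * ((p : ℝ) ^ m * (p : ℝ) ^ V) ≤
        ‖z‖ * ((p : ℝ) ^ 2)⁻¹ := by
      have h7 : (p : ℝ) ^ m * (p : ℝ) ^ V ≤ (p : ℝ) ^ (i + V) := by
        rw [← pow_add]
        exact pow_le_pow_right₀ hp1.le (by omega)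
      have h8 : ((p : ℝ) ^ (i + 2 + V))⁻¹ * (p : ℝ) ^ (i + V) = ((p : ℝ) ^ 2)⁻¹ := by
        rw [show i + 2 + V = (i + V) + 2 by ring, pow_add (p : ℝ) (i + V) 2]
        field_simp
      calc ((p : ℝ) ^ (i + 2 + V))⁻¹ * ‖z‖ * ((p : ℝ) ^ m * (p : ℝ) ^ V) ≤
          ((p : ℝ) ^ (i + 2 + V))⁻¹ * ‖z‖ * (p : ℝ) ^ (i + V) :=
            mul_le_mul_of_nonneg_left h7 (by positivity)
        _ = ‖z‖ * (((p : ℝ) ^ (i + 2 + V))⁻¹ * (p : ℝ) ^ (i + V)) := by ring
        _ = _ := by rw [h8]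
    refine (h4.trans h6).trans_lt (mul_lt_mul_of_pos_left ?_ hzn)
    rw [← inv_pow, sq]
    have h9 : (p : ℝ)⁻¹ < 1 := inv_lt_one_of_one_lt₀ hp1
    have h10 : 0 < (p : ℝ)⁻¹ := inv_pos.2 hp0
    nlinarith
  refine ⟨z, (hmem z).1 hz, lfix_mem fun σ hσ => ?_⟩
  by_contra hne
  have h1 : ‖σ z - z‖ ≤ ‖x' - z‖ := by
    have e : σ z - z = (x' - z) - (x' - σ z) := by ring
    rw [e]
    refine (norm_sub_le' _ _).trans (max_le le_rfl ?_)
    have h2 : x' - σ z = σ (x' - z) := by rw [map_sub, hσ x' hx'F]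
    rw [h2, norm_aut]
  have h2 : (σ z / z) ^ R = 1 := by
    rw [div_pow, ← map_pow, hzR, hσ a (hkF ha), div_self ha0]
  have h3 : σ z / z ≠ 1 := by
    intro h4
    exact hne ((div_eq_one_iff_eq hz0).1 h4)
  have h4 := unit_far hR h2 h3
  have h5 : σ z - z = -(z * (1 - σ z / z)) := by
    field_simp
    ring
  rw [h5, norm_neg, norm_mul] at h1
  have h6 : ‖z‖ * (p : ℝ)⁻¹ ≤ ‖z‖ * ‖1 - σ z / z‖ := mul_le_mul_of_nonneg_left h4 hzn.le
  linarith

end L8

open L7 L8 in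
theorem l8 : S_STRUCT → S_KRAS := by
  classical
  intro hST p _ k hk hkf A V hA i n M hni hM π hπ β hβ
  set L := llev k A (p ^ i) (p ^ n * M) with hL
  have hpp : p.Prime := Fact.out
  have hp0 : (0 : ℝ) < p := by exact_mod_cast hpp.pos
  have hp1 : (1 : ℝ) < p := by exact_mod_cast hpp.one_lt
  have hM0 : 0 < M := Nat.pos_of_ne_zero (by rintro rfl; exact hM (dvd_zero p))
  have hR : 0 < p ^ n * M := Nat.mul_pos (pow_pos hpp.pos n) hM0
  have hi0 : 0 < p ^ i := pow_pos hpp.pos i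
  have hkL : k ≤ L := le_sup_left
  have hTL : ({x | x ^ p ^ i = 1} ∪ {y | ∃ a ∈ A, y ^ (p ^ n * M) = a} : Set (Om p)) ⊆ L := by
    intro x hx
    exact (le_sup_right : _ ≤ L) (IntermediateField.subset_adjoin ℚ_[p] _ hx)
  have hfin : FinOver (kur p) L := by
    obtain ⟨s, hs⟩ := hkf
    have hT : ({x | x ^ p ^ i = 1} ∪ {y | ∃ a ∈ A, y ^ (p ^ n * M) = a} : Set (Om p)).Finite := by
      refine Set.Finite.union ?_ ?_
      · refine (Finset.finite_toSet (nthRoots (p ^ i) (1 : Om p)).toFinset).subset ?_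
        intro x hx
        rw [Finset.mem_coe, Multiset.mem_toFinset, mem_nthRoots hi0]
        exact hx
      · refine (Finset.finite_toSet (A.biUnion fun a =>
          (nthRoots (p ^ n * M) (a : Om p)).toFinset)).subset ?_
        rintro y ⟨a, ha, hy⟩
        rw [Finset.mem_coe, Finset.mem_biUnion]
        refine ⟨a, ha, ?_⟩
        rw [Multiset.mem_toFinset, mem_nthRoots hR]
        exact hy
    refine ⟨s ∪ hT.toFinset, ?_⟩
    rw [Finset.coe_union, Set.Finite.coe_toFinset, IntermediateField.adjoin_union, ← sup_assoc,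
      ← hs]
    rfl
  have hfs := lorb_finite k π
  have hβ' : ∏ y ∈ hfs.toFinset, ‖β - y‖ ≤ ((p : ℝ) ^ (i + 2 + V))⁻¹ := by
    have e1 : (lorb k π) = (↑(hfs.toFinset) : Set (Om p)) := by
      rw [Set.Finite.coe_toFinset]
    rw [e1, finprod_mem_coe_finset] at hβ
    exact hβ
  have hβ1 : ‖β‖ ≤ 1 := by
    by_contra hcon
    rw [not_le] at hcon
    have h1 : ∀ y ∈ hfs.toFinset, ‖β - y‖ = ‖β‖ := by
      intro y hy
      rw [Set.Finite.mem_toFinset] at hy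
      obtain ⟨σ, -, rfl⟩ := hy
      have h2 : ‖σ π‖ < ‖β‖ := by
        rw [norm_aut]
        exact hπ.2.2.1.trans hcon
      have h3 := IsUltrametricDist.norm_add_eq_max_of_norm_ne_norm (x := β) (y := -σ π)
        (by rw [norm_neg]; exact h2.ne')
      rw [sub_eq_add_neg, h3, norm_neg, max_eq_left h2.le]
    rw [Finset.prod_congr rfl h1, Finset.prod_const] at hβ'
    have h2 : 1 ≤ ‖β‖ ^ hfs.toFinset.card := one_le_pow₀ hcon.le
    have h3 : ((p : ℝ) ^ (i + 2 + V))⁻¹ < 1 :=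
      inv_lt_one_of_one_lt₀ (one_lt_pow₀ hp1 (by omega))
    linarith
  set F := k ⊔ IntermediateField.adjoin ℚ_[p] {β} with hF
  have hkF : k ≤ F := le_sup_left
  have hnorm : ∀ m : ℕ, ‖((p ^ m : ℕ) : Om p)‖ = ((p : ℝ) ^ m)⁻¹ := by
    intro m
    have h2 : ((p : ℚ_[p]) : Om p) = (p : Om p) := map_natCast (algebraMap ℚ_[p] (PadicAlgCl p)) p
    have h3 := PadicAlgCl.norm_extends (p := p) (p : ℚ_[p])
    rw [h2] at h3
    rw [Nat.cast_pow, norm_pow, h3, Padic.norm_p, inv_pow]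
  have hMn : ‖(M : Om p)‖ = 1 := by
    have h2 : ((M : ℚ_[p]) : Om p) = (M : Om p) := map_natCast (algebraMap ℚ_[p] (PadicAlgCl p)) M
    have h3 := PadicAlgCl.norm_extends (p := p) (M : ℚ_[p])
    rw [h2] at h3
    rw [h3, Padic.norm_natCast_eq_one_iff]
    exact (Nat.Prime.coprime_iff_not_dvd hpp).2 hM
  -- roots of unity of order a power of `p`
  have hroot : ∀ x : Om p, x ^ p ^ i = 1 → x ∈ F := by
    intro x hx
    obtain ⟨z, ⟨σ, hσ, hσz⟩, hz⟩ := krasner (V := V) (i := i) (m := i) (R := p ^ i) (a := 1)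
      (x := x) hST hk hkL hfin hπ hβ1 hi0 le_rfl (hnorm i).ge (one_mem k) one_ne_zero
      (by simp) (by
        rw [norm_one]
        exact inv_le_one_of_one_le₀ (one_le_pow₀ hp1.le)) (hTL (Or.inl hx)) hx hβ'
    have ho : orderOf z = orderOf x := by
      rw [← hσz]
      exact orderOf_injective (σ : Om p →* Om p) σ.injective x
    have ho0 : 0 < orderOf x := orderOf_pos_iff.2 (isOfFinOrder_iff_pow_eq_one.2 ⟨_, hi0, hx⟩)
    have : NeZero (orderOf z) := ⟨by omega⟩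
    obtain ⟨j, -, hj⟩ := (IsPrimitiveRoot.orderOf z).eq_pow_of_pow_eq_one (ξ := x)
      (by rw [ho]; exact pow_orderOf_eq_one x)
    rw [← hj]
    exact pow_mem hz j
  refine sup_le hkF ?_
  rw [IntermediateField.adjoin_le_iff]
  rintro y (hy | ⟨a, ha, hy⟩)
  · exact hroot y hy
  · obtain ⟨hak, ha0, ha1, haV⟩ := hA a ha
    obtain ⟨z, ⟨σ, hσ, hσz⟩, hz⟩ := krasner (V := V) (i := i) (m := n) (R := p ^ n * M) (a := a)
      (x := y) hST hk hkL hfin hπ hβ1 hR hni (by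
        rw [Nat.cast_mul, norm_mul, hMn, mul_one]
        exact (hnorm n).ge) hak ha0 ha1 haV (hTL (Or.inr ⟨a, ha, hy⟩)) hy hβ'
    have hzR : z ^ (p ^ n * M) = a := by
      rw [← hσz, ← map_pow, hy, hσ a hak]
    have hz0 : z ≠ 0 := by
      rintro rfl
      rw [zero_pow hR.ne'] at hzR
      exact ha0 hzR.symm
    set η := y / z with hη
    have hηR : η ^ (p ^ n * M) = 1 := by
      rw [hη, div_pow, hy, hzR, div_self ha0]
    have h1 : η ^ p ^ n ∈ F := by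
      refine hkF (hk (IntermediateField.subset_adjoin ℚ_[p] _ ⟨M, hM, ?_⟩))
      rw [← pow_mul]
      exact hηR
    have h2 : η ^ M ∈ F := by
      refine hroot _ ?_
      rw [← pow_mul]
      obtain ⟨d, hd⟩ := Nat.exists_eq_add_of_le hni
      rw [hd, pow_add, show M * (p ^ n * p ^ d) = (p ^ n * M) * p ^ d by ring, pow_mul, hηR,
        one_pow]
    have hη0 : η ≠ 0 := by
      intro h
      rw [h, zero_pow hR.ne'] at hηR
      exact zero_ne_one hηR
    have hcop : Nat.Coprime (p ^ n) M :=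
      Nat.Coprime.pow_left n ((Nat.Prime.coprime_iff_not_dvd hpp).2 hM)
    have h3 : η = (η ^ p ^ n) ^ (Nat.gcdA (p ^ n) M) * (η ^ M) ^ (Nat.gcdB (p ^ n) M) := by
      have hb := Nat.gcd_eq_gcd_ab (p ^ n) M
      rw [hcop.gcd_eq_one] at hb
      have e1 : (η ^ p ^ n) ^ (Nat.gcdA (p ^ n) M) = η ^ (((p ^ n : ℕ) : ℤ) * Nat.gcdA (p ^ n) M) := by
        rw [zpow_mul, zpow_natCast]
      have e2 : (η ^ M) ^ (Nat.gcdB (p ^ n) M) = η ^ ((M : ℤ) * Nat.gcdB (p ^ n) M) := by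
        rw [zpow_mul, zpow_natCast]
      rw [e1, e2, ← zpow_add₀ hη0, ← hb]
      simp
    have h4 : η ∈ F := by
      rw [h3]
      exact mul_mem (zpow_mem h1 _) (zpow_mem h2 _)
    have h5 : y = η * z := by
      rw [hη, div_mul_cancel₀ _ hz0]
    rw [h5]
    exact mul_mem h4 hz

end Pool.Agent.W803.RK
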